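import Pool.Agent.Q9.EL.Bes6

/-!
# Continuation of motivic L-functions past the edge, and Bessel series over the prime powers

Let `M` be a Chow motive over `ℚ` and `H = H^i(M)`, of dimension `N`.  The `L`-function `L(H, s)` is an
Euler product, absolutely convergent for `Re s > i/2 + 1`; nothing is known about a continuation, or
about zeros and poles, at or beyond the edge `Re s = i/2 + 1`.  Nothing of this kind is assumed.

All that the theorem uses about `M` is that the eigenvalues `α_{p,1}, …, α_{p,N}` of the geometric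
Frobenius on `H` have the absolute value `p^{i/2}` at the primes `p ∉ S`, which is the theorem of
Deligne if `S` contains the primes of bad reduction.

`c` is a completely multiplicative function with `|c| ≤ 1`, for example `c = 1`, or `c(n) = χ(n)` with a
Dirichlet character `χ`.  The imaginary unit is denoted by `I`.
-/

set_option autoImplicit false

namespace Pool.Agent.Results.MP_148101_nt.BesselCriterion

open MeasureTheory Filter Topology Polynomial

/-- `H^i(M)` for a Chow motive `M` over `ℚ`: the dimension `N`, a set `S` of primes, and the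
eigenvalues `α_{p,1}, …, α_{p,N}` of Frobenius at the primes `p ∉ S`, of absolute value `p^{i/2}`; and a
completely multiplicative function `c` with `|c| ≤ 1`. -/
structure Motive where
  N : ℕ
  i : ℤ
  S : Set Nat.Primes
  α : Nat.Primes → Fin N → ℂ
  pure : ∀ p, p ∉ S → ∀ j, ‖α p j‖ = ((p : ℕ) : ℝ) ^ ((i : ℝ) / 2)
  c : ℕ →* ℂ
  norm_c : ∀ n, ‖c n‖ ≤ 1

open Classical in
/-- `L_S(H^i(M) ⊗ c, s)`, the product over the primes `p ∉ S` of the Euler factors
`∏_j (1 - c(p) α_{p,j} p^{-s})⁻¹`. -/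
noncomputable def LFun (D : Motive) (s : ℂ) : ℂ :=
  ∏' p : Nat.Primes, if p ∈ D.S then 1 else ∏ j, (1 - D.c p * D.α p j * ((p : ℕ) : ℂ) ^ (-s))⁻¹

open Classical in
/-- The coefficient of `p^{-n(s - i/2)}` in `log L_S(H^i(M) ⊗ c, s)`: it is
`c(p)^n ∑_j α_{p,j}^n / (n p^{ni/2})` for `p ∉ S`, and `0` for `p ∈ S`. -/
noncomputable def coeff (D : Motive) (p : Nat.Primes) (n : ℕ) : ℂ :=
  if p ∈ D.S then 0 else
    D.c p ^ n * (∑ j, D.α p j ^ n) / ((n : ℂ) * (((((p : ℕ) : ℝ) ^ ((D.i : ℝ) / 2)) ^ n : ℝ) : ℂ))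

/-- The Bessel function `J_k(y) = (I^k / π) ∫_0^π e^{-Iy cos θ} cos(kθ) dθ` of order `k`. -/
noncomputable def bessel (k : ℕ) (y : ℝ) : ℂ :=
  Complex.I ^ k / Real.pi * ∫ θ in (0 : ℝ)..Real.pi,
    Complex.exp (-(Complex.I * y * Real.cos θ)) * Complex.cos (k * θ)

/-- The term of the Bessel series at the prime power `q = p^{j+1}`: the coefficient of `q`, times
`q^{-1-Iτ}`, times `J_k(h log q) / (h log q)`. -/
noncomputable def besselTerm (D : Motive) (τ h : ℝ) (k : ℕ) (x : Nat.Primes × ℕ) : ℂ :=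
  coeff D x.1 (x.2 + 1) * (((x.1 : ℕ) : ℂ) ^ (-(1 + τ * Complex.I))) ^ (x.2 + 1) *
    (bessel k (h * Real.log (((x.1 : ℕ) ^ (x.2 + 1) : ℕ) : ℝ)) /
      ((h * Real.log (((x.1 : ℕ) ^ (x.2 + 1) : ℕ) : ℝ) : ℝ) : ℂ))

/-- The Bessel series `B_k(τ, h)`, the sum of the terms over all prime powers. -/
noncomputable def besselSeries (D : Motive) (τ h : ℝ) (k : ℕ) : ℂ :=
  ∑' x : Nat.Primes × ℕ, besselTerm D τ h k x

/-- The contribution of a simple pole at `i/2 + 1`: the number
`ℓ_k(τ, h) = (2/π) ∫_{-1}^1 log(I(τ + hu)) U_{k-1}(u) √(1 - u²) du` with the Chebyshev polynomial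
`U_{k-1}` of the second kind. -/
noncomputable def poleTerm (τ h : ℝ) (k : ℕ) : ℂ :=
  (2 / Real.pi) * ∫ u in (-1 : ℝ)..1, Complex.log (Complex.I * ((τ + h * u : ℝ) : ℂ)) *
    ((Chebyshev.U ℂ ((k - 1 : ℕ) : ℤ)).eval (u : ℂ) * ((Real.sqrt (1 - u ^ 2) : ℝ) : ℂ))

/-- The number `b_k(τ, h) = (2Ik / I^k) B_k(τ, h) + m ℓ_k(τ, h)`. -/
noncomputable def total (D : Motive) (m : ℤ) (τ h : ℝ) (k : ℕ) : ℂ :=
  2 * Complex.I * (k : ℂ) / Complex.I ^ k * besselSeries D τ h k + m * poleTerm τ h k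

/-- `(s - i/2 - 1)^m L_S(H^i(M) ⊗ c, s)` has an analytic continuation without zeros to the half-plane
`Re s > i/2 + 1 - δ`. -/
def Continues (D : Motive) (m : ℤ) (δ : ℝ) : Prop :=
  ∃ g : ℂ → ℂ, DifferentiableOn ℂ g {s : ℂ | (D.i : ℝ) / 2 + 1 - δ < s.re} ∧
    (∀ s : ℂ, (D.i : ℝ) / 2 + 1 - δ < s.re → g s ≠ 0) ∧
    ∀ s : ℂ, (D.i : ℝ) / 2 + 1 < s.re →
      g s = (s - (((D.i : ℝ) / 2 + 1 : ℝ) : ℂ)) ^ m * LFun D s

/-- **The Bessel criterion.**

1. For all real `τ`, all `h > 0` and all `k`, the Bessel series `B_k(τ, h)` converges absolutely.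
2. For all integers `m` and all `h, δ > 0`: the function `(s - i/2 - 1)^m L_S(H^i(M) ⊗ c, s)` has an
   analytic continuation without zeros to the half-plane `Re s > i/2 + 1 - δ` if and only if
   `b_k(τ, h) = O(r^{-k})` for `k → ∞`, for every real `τ` and every `r > 1` with `h(r - 1/r) < 2δ`.
3. In particular (`h = 1`, `δ = 1/2`), it has such a continuation to the half-plane
   `Re s > (i + 1)/2` to the right of the central line if and only if `b_k(τ, 1) = O(r^{-k})` for every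
   real `τ` and every `r` between `1` and the golden ratio. -/
theorem result (D : Motive) :
    (∀ (τ h : ℝ) (k : ℕ), 0 < h → Summable fun x => ‖besselTerm D τ h k x‖) ∧
    (∀ (m : ℤ) (h δ : ℝ), 0 < h → 0 < δ →
      (Continues D m δ ↔ ∀ τ r : ℝ, 1 < r → h * (r - 1 / r) < 2 * δ →
        ∃ C : ℝ, ∀ k : ℕ, 1 ≤ k → ‖total D m τ h k‖ ≤ C / r ^ k)) ∧
    ∀ m : ℤ, Continues D m (1 / 2) ↔ ∀ τ r : ℝ, 1 < r → r < Real.goldenRatio →
      ∃ C : ℝ, ∀ k : ℕ, 1 ≤ k → ‖total D m τ 1 k‖ ≤ C / r ^ k := by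
  have hb := Pool.Agent.Q9.EL.norm_bQ (w := (D.i : ℝ)) (S := D.S) (α := D.α) (c := D.c)
    D.norm_c D.pure
  have hF : ∀ s : ℂ, 1 < s.re → LFun D (s + (((D.i : ℝ) / 2 : ℝ) : ℂ)) =
      Complex.exp (Pool.Agent.TH339.MP.FF
        (Pool.Agent.Q9.EL.bQ (D.i : ℝ) D.S D.α D.c) s) := fun s hs =>
    Pool.Agent.Q9.EL.LQ_eq (c := D.c) D.norm_c D.pure hs
  have h2 : ∀ (m : ℤ) (h δ : ℝ), 0 < h → 0 < δ →
      (Continues D m δ ↔ ∀ τ r : ℝ, 1 < r → h * (r - 1 / r) < 2 * δ →
        ∃ C : ℝ, ∀ k : ℕ, 1 ≤ k → ‖total D m τ h k‖ ≤ C / r ^ k) := fun m h δ hh hδ =>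
    Pool.Agent.Q9.EL.bessel_iff hb hF m hh hδ
  refine ⟨fun τ h k hh => ?_, h2, fun m => ?_⟩
  · exact Pool.Agent.Q9.EL.summable_bt hb τ hh k
  · rw [h2 m 1 (1 / 2) one_pos (by norm_num)]
    refine forall_congr' fun τ => forall_congr' fun r => forall_congr' fun hr => ?_
    have key : 1 * (r - 1 / r) < 2 * (1 / 2) ↔ r < Real.goldenRatio := by
      have hr0 : 0 < r := by linarith
      have h3 := Real.goldenRatio_sq
      have h4 := Real.one_lt_goldenRatio
      have e : 1 * (r - 1 / r) < 2 * (1 / 2) ↔ r ^ 2 < r + 1 := by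
        rw [one_mul]
        have : r - 1 / r = (r ^ 2 - 1) / r := by
          field_simp
        rw [this, div_lt_iff₀ hr0]
        constructor
        · intro h
          linarith
        · intro h
          linarith
      rw [e]
      constructor
      · intro h
        by_contra hcon
        rw [not_lt] at hcon
        nlinarith
      · intro h
        nlinarith
    rw [key]

end Pool.Agent.Results.MP_148101_nt.BesselCriterion
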