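import Pool.Agent.Results.MP_553913_nt.DerivativesDensity
import Pool.Agent.Q9.RH.GrQ

/-!
# `|Λ(E, s)|` increases away from the line `Re s = 1` at almost all heights

`E : y² = x³ + a x + b` is an elliptic curve over `ℚ` of conductor `N` and `Λ` its completed L-function
(definitions of the starting file `Pool.Agent.Results.MP_553913_nt.DerivativesDensity`).

The Riemann hypothesis for `E` holds if and only if for every real `t` the function `x ↦ |Λ(1 + x + i t)|` is
strictly increasing on `x ≥ 0` (part of the result).  We prove, without any hypothesis and for EVERY `c < 1`: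
for all `r ≥ 0` and `T ≥ 2` the heights `t` in `[0, T]` at which it is not strictly increasing on
`x ≥ r / log T` form a set of measure at most `C e^(-c r) T`.

Proof.  A zero `1 + β + i γ` of `Λ`, `β ≠ 0`, disturbs the growth only at the heights `t` with `|t - γ| < |β|`: a
function with `Φ(-conj z) = conj Φ(z)` and zeros in a vertical strip is approximated by polynomials which have
the same symmetry and whose zeros are zeros of `Φ` or lie on the imaginary axis (Hadamard), and for a pair of
symmetric linear factors the claim is elementary (`Pool.Agent.Y22.LM1`).  The zeros with `|β| ≥ r / log T` are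
few by the density theorem `MP_553913_nt.ZeroDensity`.  The version over abelian fields of conductor prime to
`N` is `MP_fb225e_nt.HorizontalGrowth`.
-/

set_option autoImplicit false

open Complex UpperHalfPlane MatrixGroups CongruenceSubgroup

namespace Pool.Agent.Results.MP_553913_nt.HorizontalGrowth

open Pool.Agent.Results.MP_553913_nt.DerivativesDensity (coef IsFormOf IsCompleted)

/-- The heights `t` in `[0, T]` at which `x ↦ |Λ(1 + x + i t)|` is not strictly increasing on the half-line
`x ≥ h`. -/
def Exceptional (Λ : ℂ → ℂ) (h T : ℝ) : Set ℝ :=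
  {t : ℝ | 0 ≤ t ∧ t ≤ T ∧ ¬ StrictMonoOn (fun x : ℝ => ‖Λ (1 + x + t * Complex.I)‖) (Set.Ici h)}

/-- **Main theorem.** Let `E : y² = x³ + a x + b` be an elliptic curve over `ℚ`, and `Λ` its completed
L-function. All zeros of `Λ` are on the line `Re s = 1` if and only if `x ↦ |Λ(1 + x + i t)|` is strictly
increasing on `x ≥ 0` for all real `t`; and for every `c < 1` there is `C > 0` such that for all `r ≥ 0` and
`T ≥ 2` the exceptional heights for `h = r / log T` in `[0, T]` have the Lebesgue (outer) measure at most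
`C e^(-c r) T`. -/
theorem result (a b : ℤ) (N : ℕ) [NeZero N] (f : CuspForm (Gamma0 N : Subgroup (GL (Fin 2) ℝ)) 2) (w : ℝ)
    (_ : 4 * a ^ 3 + 27 * b ^ 2 ≠ 0) (hf : IsFormOf a b N f w) :
    ∃ Λ : ℂ → ℂ, IsCompleted f Λ ∧ (∀ Λ', IsCompleted f Λ' → Λ' = Λ) ∧
      (∀ s : ℂ, Λ (2 - s) = (w : ℂ) * Λ s) ∧
      ((∀ s : ℂ, Λ s = 0 → s.re = 1) ↔
        ∀ t : ℝ, StrictMonoOn (fun x : ℝ => ‖Λ (1 + x + t * Complex.I)‖) (Set.Ici 0)) ∧
      ∀ c : ℝ, c < 1 → ∃ C : ℝ, 0 < C ∧ ∀ r T : ℝ, 0 ≤ r → 2 ≤ T →
        MeasureTheory.volume (Exceptional Λ (r / Real.log T) T) ≤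
          ENNReal.ofReal (C * Real.exp (-(c * r)) * T) := by
  have hf' : Pool.Agent.W169.HF.IsForm N f w :=
    { one := hf.one
      real := hf.real
      mul := hf.mul
      pow := hf.pow
      sign := hf.sign
      fricke := hf.fricke
      good := hf.good
      bad := fun p hp hpN => by
        have h1 : (1 : ℝ) ≤ Real.sqrt p := by
          rw [Real.one_le_sqrt]
          exact_mod_cast hp.one_le
        have h2 : ‖coef f p‖ ≤ 1 := by
          rcases hf.bad p hp hpN with h | h | h <;> simp [h]
        exact h2.trans h1 }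
  obtain ⟨Λ, hΛ, hfe, -, -⟩ := Pool.Agent.W174.HF.nf1 N f w hf'
  have h5 := Pool.Agent.Q9.RH.res_q hf' hΛ
  exact ⟨Λ, hΛ, fun Λ' h' => Pool.Agent.W169.HF.completed_unique h' hΛ, hfe, h5.rh, fun c hc => h5.grow c hc⟩

end Pool.Agent.Results.MP_553913_nt.HorizontalGrowth
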