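import Pool.Agent.Q9.EL.LX

/-!
# The twists of elliptic curves over number fields by Dirichlet characters on the edge of convergence

`E` is an elliptic curve over a number field `K`.  The `L`-series of `E` twisted by a Dirichlet character
`χ` is an Euler product over the primes of `K`, convergent for `Re s > 3/2`; in general no continuation
to any point of the edge `Re s = 3/2` is known, for `E` and for its twists.  Nothing of this kind is
assumed.

The theorem gives the limit law of the boundary values of `log L(E ⊗ χ, s)` on the edge, where `χ` runs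
through all Dirichlet characters modulo a large prime `q` and `s = 3/2 + it` through any interval of
length at least one.  It is the law of the random Euler product where `χ` is replaced by a random
completely multiplicative function (Steinhaus), and it holds jointly for several curves, uniformly in
the curves, their fields of definition of bounded degree, and the interval.
-/

set_option autoImplicit false

namespace Pool.Agent.Results.MP_7ed9c3_nt.DirichletTwistLaw

open NumberField IsDedekindDomain MeasureTheory Filter Topology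

section
variable {K : Type} [Field K] [NumberField K]

/-- `W v` is, for every finite place `v`, an integral model of `E` with discriminant minimal at
`v`. -/
def MinimalModels (E : WeierstrassCurve K)
    (W : HeightOneSpectrum (𝓞 K) → WeierstrassCurve (𝓞 K)) : Prop :=
  ∀ v : HeightOneSpectrum (𝓞 K),
    (∃ C : WeierstrassCurve.VariableChange K, C • (W v).map (algebraMap (𝓞 K) K) = E) ∧
    ∀ W' : WeierstrassCurve (𝓞 K),
      (∃ C : WeierstrassCurve.VariableChange K, C • W'.map (algebraMap (𝓞 K) K) = E) →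
      ∀ n : ℕ, (W v).Δ ∈ v.asIdeal ^ n → W'.Δ ∈ v.asIdeal ^ n

/-- `a_v`, which is `Nv` minus the number of affine points of the reduction of `W v`; for bad reduction
this is `1`, `-1`, `0` in the split multiplicative, non-split multiplicative, additive case. -/
noncomputable def trace (W : HeightOneSpectrum (𝓞 K) → WeierstrassCurve (𝓞 K))
    (v : HeightOneSpectrum (𝓞 K)) : ℂ :=
  (Ideal.absNorm v.asIdeal : ℂ)
    - (Nat.card {xy : (𝓞 K ⧸ v.asIdeal) × (𝓞 K ⧸ v.asIdeal) //
        ((W v).map (Ideal.Quotient.mk v.asIdeal)).toAffine.Equation xy.1 xy.2} : ℂ)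

open Classical in
/-- The inverse of the Euler factor at `v` of the twist by the function `c`: with
`x = c(Nv) Nv^{-s}` it is `1 - a_v x + Nv x²` if the reduction at `v` is good and `1 - a_v x` if it is
bad. -/
noncomputable def denominator (c : ℕ → ℂ) (W : HeightOneSpectrum (𝓞 K) → WeierstrassCurve (𝓞 K))
    (v : HeightOneSpectrum (𝓞 K)) (s : ℂ) : ℂ :=
  1 - trace W v * (c (Ideal.absNorm v.asIdeal) * (Ideal.absNorm v.asIdeal : ℂ) ^ (-s)) +
    (if (W v).Δ ∈ v.asIdeal then 0 else (Ideal.absNorm v.asIdeal : ℂ)) *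
      (c (Ideal.absNorm v.asIdeal) * (Ideal.absNorm v.asIdeal : ℂ) ^ (-s)) ^ 2

/-- The `L`-series of `E`, twisted by `c`, as the Euler product over all finite places. -/
noncomputable def LSeries (c : ℕ → ℂ) (W : HeightOneSpectrum (𝓞 K) → WeierstrassCurve (𝓞 K))
    (s : ℂ) : ℂ :=
  ∏' v : HeightOneSpectrum (𝓞 K), (denominator c W v s)⁻¹

/-- Its logarithm for `Re s > 3/2`, the sum of the principal logarithms of the Euler factors. -/
noncomputable def logL (c : ℕ → ℂ) (W : HeightOneSpectrum (𝓞 K) → WeierstrassCurve (𝓞 K))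
    (s : ℂ) : ℂ :=
  ∑' v : HeightOneSpectrum (𝓞 K), -Complex.log (denominator c W v s)

/-- The point `3/2 + iτ` of the edge. -/
noncomputable def edge (τ : ℝ) : ℂ := 3 / 2 + τ * Complex.I

/-- The angle `|s - (3/2 + iτ)| ≤ C (Re s - 3/2)` in the half-plane `Re s > 3/2`. -/
def angle (τ C : ℝ) : Set ℂ :=
  {s : ℂ | 3 / 2 < s.re ∧ ‖s - edge τ‖ ≤ C * (s.re - 3 / 2)}

/-- The boundary value of the logarithm at `3/2 + iτ`: its limit along the horizontal line. -/
noncomputable def edgeLog (c : ℕ → ℂ) (W : HeightOneSpectrum (𝓞 K) → WeierstrassCurve (𝓞 K))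
    (τ : ℝ) : ℂ :=
  limUnder (𝓝[>] (0 : ℝ)) fun h : ℝ => logL c W (edge τ + h)

end

/-- An elliptic curve over a number field of degree at most `n`, with minimal models. -/
structure Curve (n : ℕ) where
  K : Type
  [field : Field K]
  [numberField : NumberField K]
  degree : Module.finrank ℚ K ≤ n
  E : WeierstrassCurve K
  elliptic : E.IsElliptic
  W : HeightOneSpectrum (𝓞 K) → WeierstrassCurve (𝓞 K)
  minimal : MinimalModels E W

attribute [instance] Curve.field Curve.numberField

/-- The character `χ` as a function on the natural numbers. -/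
noncomputable def char {q : ℕ} (χ : DirichletCharacter ℂ q) : ℕ → ℂ := fun n => χ (n : ZMod q)

/-- The probability space of the sequences of independent, uniformly distributed angles. -/
noncomputable def angles : Measure (ℕ → UnitAddCircle) :=
  Measure.infinitePi (fun _ : ℕ => AddCircle.haarAddCircle (T := 1))

/-- The random completely multiplicative function of Steinhaus: `f(p) = e^{-2πi z_k}` if `p` is the
prime with the number `k`, and `f(0) = 0`. -/
noncomputable def steinhaus (z : ℕ → UnitAddCircle) (n : ℕ) : ℂ :=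
  if n = 0 then 0 else
    n.factorization.prod fun p k => fourier (-1) (z (Nat.count Nat.Prime p)) ^ k

section
variable {K : Type} [Field K] [NumberField K]

lemma denominator_eq (c : ℕ → ℂ) (W : HeightOneSpectrum (𝓞 K) → WeierstrassCurve (𝓞 K))
    (v : HeightOneSpectrum (𝓞 K)) (s : ℂ) :
    denominator c W v s = 1 - Pool.Agent.Q9.EL.yv c W v s := by
  have h1 : (Nat.card {xy : (𝓞 K ⧸ v.asIdeal) × (𝓞 K ⧸ v.asIdeal) //
          ((W v).map (Ideal.Quotient.mk v.asIdeal)).toAffine.Equation xy.1 xy.2}) =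
      Pool.Agent.TH339.MP.affc ((W v).map (Ideal.Quotient.mk v.asIdeal)) := by
    unfold Pool.Agent.TH339.MP.affc
    refine Nat.card_congr (Equiv.subtypeEquivRight fun q => ?_)
    exact WeierstrassCurve.Affine.equation_iff ..
  unfold denominator trace Pool.Agent.Q9.EL.yv Pool.Agent.TH339.MP.av Pool.Agent.TH339.MP.nm
  rw [h1]
  push_cast
  ring

lemma logL_eq (c : ℕ → ℂ) (W : HeightOneSpectrum (𝓞 K) → WeierstrassCurve (𝓞 K)) :
    logL c W = Pool.Agent.Q9.EL.lE c W := by
  funext s
  unfold logL Pool.Agent.Q9.EL.lE Pool.Agent.Q9.EL.lec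
  exact tsum_congr fun v => by rw [denominator_eq]

lemma edgeLog_eq (c : ℕ → ℂ) (W : HeightOneSpectrum (𝓞 K) → WeierstrassCurve (𝓞 K)) (τ : ℝ) :
    edgeLog c W τ = Pool.Agent.Q9.EL.bE c W τ := by
  unfold edgeLog Pool.Agent.Q9.EL.bE
  rw [logL_eq]
  rfl

end

lemma steinhaus_eq (z : ℕ → UnitAddCircle) : steinhaus z = Pool.Agent.Q9.EL.fz z := by
  funext n
  unfold steinhaus
  by_cases hn : n = 0
  · rw [if_pos hn, hn, Pool.Agent.Q9.EL.fz_zero]
  · rw [if_neg hn, Pool.Agent.Q9.EL.fz_factorization z hn]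

/-- **The law of the twists on the edge.**

1. For every elliptic curve over a number field and every function `c` with `|c| ≤ 1`, `logL` is a
   logarithm of the twisted Euler product for `Re s > 3/2`, and for all real `τ` outside a set of
   Hausdorff dimension zero it tends to `edgeLog τ` in every angle at `3/2 + iτ`.
2. For almost every Steinhaus function `f`, the logarithm of the random Euler product `L(E ⊗ f, s)` has
   the boundary value `edgeLog 0` at `s = 3/2`, in every angle.
3. For all `n`, `m` and `ε > 0` there is `q₀` such that for any `m` elliptic curves over number fields of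
   degree at most `n`, every prime `q ≥ q₀` and every interval `[a, a + T]` of length `T ≥ 1`, the joint
   law of the numbers `edgeLog_j(χ, t)`, where `χ` is uniformly distributed among all Dirichlet
   characters modulo `q` and `t` in `[a, a + T]`, differs from the joint law of the boundary values of
   the random Euler products by at most `ε` in the bounded Lipschitz distance. -/
theorem result :
    (∀ (n : ℕ) (D : Curve n) (c : ℕ → ℂ), (∀ k, ‖c k‖ ≤ 1) →
      (∀ s : ℂ, 3 / 2 < s.re → LSeries c D.W s = Complex.exp (logL c D.W s)) ∧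
      dimH {τ : ℝ | ¬ ∀ C : ℝ, Tendsto (logL c D.W) (𝓝[angle τ C] (edge τ))
        (𝓝 (edgeLog c D.W τ))} = 0) ∧
    (∀ (n : ℕ) (D : Curve n), ∀ᵐ z ∂angles, ∀ C : ℝ,
      Tendsto (logL (steinhaus z) D.W) (𝓝[angle 0 C] (edge 0))
        (𝓝 (edgeLog (steinhaus z) D.W 0))) ∧
    ∀ (n m : ℕ) (ε : ℝ), 0 < ε → ∃ q₀ : ℕ, ∀ D : Fin m → Curve n,
      ∀ q : ℕ, q.Prime → q₀ ≤ q → ∀ T : ℝ, 1 ≤ T → ∀ a : ℝ,
        ∀ φ : (Fin m → ℂ) → ℝ, LipschitzWith 1 φ → (∀ w, |φ w| ≤ 1) →
          |(∑ᶠ χ : DirichletCharacter ℂ q,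
              (∫ t in a..(a + T), φ fun j => edgeLog (char χ) (D j).W t) / T) / q.totient -
            ∫ z, (φ fun j => edgeLog (steinhaus z) (D j).W 0) ∂angles| ≤ ε := by
  refine ⟨?_, ?_, ?_⟩
  · intro n D c hc
    obtain ⟨b, hb, h1, h2, h3⟩ := Pool.Agent.Q9.EL.bE_main hc D.W
    refine ⟨fun s hs => ?_, ?_⟩
    · have h4 := (Pool.Agent.Q9.EL.exp_lE hc D.W hs).tprod_eq
      rw [logL_eq, ← h4]
      unfold LSeries
      exact tprod_congr fun v => by rw [denominator_eq]
    · simp_rw [edgeLog_eq, logL_eq]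
      exact h3
  · intro n D
    obtain ⟨b, hb, hL⟩ := Pool.Agent.Q9.EL.lE_mult D.W
    filter_upwards [Pool.Agent.Q9.EL.ae_zero hb] with z hz C
    have hcz := Pool.Agent.Q9.EL.norm_fz_le z
    have hLz := hL (Pool.Agent.Q9.EL.fz z) hcz (Pool.Agent.Q9.EL.fz_one z)
      (Pool.Agent.Q9.EL.fz_mul z)
    have hbz := Pool.Agent.Q9.EL.norm_tb hcz hb
    rw [edgeLog_eq, logL_eq, steinhaus_eq]
    rw [Pool.Agent.Q9.EL.bE_eq hcz D.W hbz hLz hz]
    exact Pool.Agent.Q9.EL.lE_limit hcz D.W hbz hLz hz C
  · intro n m ε hε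
    obtain ⟨q0, H⟩ := Pool.Agent.Q9.EL.law_chi m (M := ((2 * n : ℕ) : ℝ))
      (C := 64 * (n : ℝ) ^ 2) (Nat.cast_nonneg _) hε
    refine ⟨max q0 4, fun D q hq hqq T hT a φ h1 h2 => ?_⟩
    have : NeZero q := ⟨hq.ne_zero⟩
    have hq3 : 3 < q := by
      have := (le_max_right q0 4).trans hqq
      omega
    choose b hb hL using fun j => Pool.Agent.Q9.EL.lE_mult (D j).W
    have hb' : ∀ j x, ‖b j x‖ ≤ ((2 * n : ℕ) : ℝ) / (x.2 + 1 : ℕ) := fun j x =>
      (hb j x).trans (by
        have := (D j).degree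
        gcongr)
    have hG : ∀ j z z0, ‖Pool.Agent.Q9.EL.hT (D j).W z - Pool.Agent.Q9.EL.hT (D j).W z0‖ ≤
        64 * (n : ℝ) ^ 2 * Pool.Agent.Q9.EL.om z z0 := fun j z z0 =>
      (Pool.Agent.Q9.EL.hT_diff (D j).W z z0).trans (by
        have h3 := (D j).degree
        have h4 := Pool.Agent.Q9.EL.om_nonneg z z0
        gcongr)
    have hmain := H b (fun j => Pool.Agent.Q9.EL.hT (D j).W) hb' hG q hq
      ((le_max_left _ _).trans hqq) T hT a φ h1 h2
    have e1 : ∀ χ : DirichletCharacter ℂ q,
        ∫ t in a..(a + T), φ (fun j => edgeLog (char χ) (D j).W t) =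
        ∫ t in a..(a + T), φ (fun j => Pool.Agent.Q9.EL.hT (D j).W
          (Pool.Agent.Q9.EL.zx χ + Pool.Agent.Helper873.Mean.zt t) +
          Pool.Agent.TH339.MP.bl (Pool.Agent.Q9.EL.tb (fun k : ℕ => χ (k : ZMod q)) (b j)) t) := by
      intro χ
      refine intervalIntegral.integral_congr_ae ?_
      have hcn : ∀ k, ‖char χ k‖ ≤ 1 := fun k => χ.norm_le_one _
      have h5 : ∀ᵐ t : ℝ, ∀ j, t ∉ Pool.Agent.W350.Edge.divSet (Pool.Agent.TH339.MP.ap
          (Pool.Agent.Q9.EL.tb (char χ) (b j))) := by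
        rw [ae_all_iff]
        intro j
        exact Pool.Agent.TH339.MP.ae_notMem (Pool.Agent.Q9.EL.norm_tb hcn (hb j))
      filter_upwards [h5] with t ht _
      congr 1
      funext j
      have hLj := hL j (char χ) hcn (by simp [char]) (fun u v => by simp [char])
      rw [edgeLog_eq, Pool.Agent.Q9.EL.bE_tb (hb j) hcn hLj (ht j)]
      congr 1
      refine Pool.Agent.Q9.EL.h6_torus fun v hv => ?_
      have hnm0 : Pool.Agent.TH339.MP.nm v ≠ 0 := by
        have := Pool.Agent.TH339.MP.two_le_nm v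
        omega
      refine Pool.Agent.Q9.EL.fz_zx hq χ hnm0 fun p hp hpd => ?_
      obtain ⟨f, -, h6⟩ := Pool.Agent.Q9.EL.S6_pow hv
      rcases h6 with h6 | h6
      · rw [h6] at hpd
        have := (Nat.prime_dvd_prime_iff_eq hp Nat.prime_two).1 (hp.dvd_of_dvd_pow hpd)
        omega
      · rw [h6] at hpd
        have := (Nat.prime_dvd_prime_iff_eq hp Nat.prime_three).1 (hp.dvd_of_dvd_pow hpd)
        omega
    have e2 : ∫ z, (φ fun j => edgeLog (steinhaus z) (D j).W 0) ∂angles =
        ∫ z, (φ fun j => Pool.Agent.Q9.EL.hT (D j).W z + Pool.Agent.Q9.EL.FR (b j) z)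
          ∂Pool.Agent.Helper873.Product.tor := by
      refine integral_congr_ae ?_
      have h5 : ∀ᵐ z ∂Pool.Agent.Helper873.Product.tor, ∀ j,
          (0 : ℝ) ∉ Pool.Agent.W350.Edge.divSet (Pool.Agent.TH339.MP.ap
            (Pool.Agent.Q9.EL.fb z (b j))) ∧
          Pool.Agent.Q9.EL.FR (b j) z =
            Pool.Agent.TH339.MP.bl (Pool.Agent.Q9.EL.fb z (b j)) 0 := by
        rw [ae_all_iff]
        intro j
        exact (Pool.Agent.Q9.EL.ae_zero (hb j)).and (Pool.Agent.Q9.EL.FR_eq_bl (hb j))
      filter_upwards [h5] with z hz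
      congr 1
      funext j
      have hcz := Pool.Agent.Q9.EL.norm_fz_le z
      have hLz := hL j (Pool.Agent.Q9.EL.fz z) hcz (Pool.Agent.Q9.EL.fz_one z)
        (Pool.Agent.Q9.EL.fz_mul z)
      rw [edgeLog_eq, steinhaus_eq, Pool.Agent.Q9.EL.bE_tb (hb j) hcz hLz (hz j).1, (hz j).2]
      rfl
    simp_rw [e1]
    rw [e2]
    exact hmain

end Pool.Agent.Results.MP_7ed9c3_nt.DirichletTwistLaw
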